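import Pool.Agent.Helper63.QP2.St1

/-!
# Module SWP of project QD (MP_d112a4_gt): exchange of the inside and the outside of the disc
-/

set_option autoImplicit false

open Filter Topology Matrix Set Metric MeasureTheory
open scoped ComplexConjugate ENNReal

namespace Pool.Agent.Helper52.QP2

open Pool.Agent.Helper63.QP2
open Pool.Agent.Helper35.PM (hs Mat SL IsDiscrete SurfaceGroup Adapted IsQF HolDisc pressureDist)
open Pool.Agent.Helper20.QD (Fuch cj IsSU D DD SS)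
open Pool.Agent.Helper68.QC (nq Bel InvB Intw mob den)
open Pool.Agent.Helper68.QS (Intw2)
open Pool.Agent.Helper20.QP (Prim Cj TF FD sh ll StI StOP1 StNCL StCEN)
open Pool.Agent.Helper17.QD (Sta cc pre Thk StFPC StOPN)

theorem JJinv : ((JJ⁻¹ : SL) : Mat) = !![0, -Complex.I; -Complex.I, 0] := by
  rw [Matrix.SpecialLinearGroup.coe_inv]
  simp only [JJ, Matrix.adjugate_fin_two_of]

theorem den_JJinv (y : ℂ) : den (JJ⁻¹ : SL) y = -Complex.I * y := by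
  have h := JJinv
  have h10 : ((JJ⁻¹ : SL) : Mat) 1 0 = -Complex.I := by rw [h]; rfl
  have h11 : ((JJ⁻¹ : SL) : Mat) 1 1 = 0 := by rw [h]; rfl
  show ((JJ⁻¹ : SL) : Mat) 1 0 * y + ((JJ⁻¹ : SL) : Mat) 1 1 = _
  rw [h10, h11, add_zero]

theorem mob_JJinv (y : ℂ) : mob (JJ⁻¹ : SL) y = y⁻¹ := by
  have h := JJinv
  have h00 : ((JJ⁻¹ : SL) : Mat) 0 0 = 0 := by rw [h]; rfl
  have h01 : ((JJ⁻¹ : SL) : Mat) 0 1 = -Complex.I := by rw [h]; rfl
  show (((JJ⁻¹ : SL) : Mat) 0 0 * y + ((JJ⁻¹ : SL) : Mat) 0 1) / den (JJ⁻¹ : SL) y = _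
  rw [h00, h01, den_JJinv, zero_mul, zero_add]
  rcases eq_or_ne y 0 with h0 | h0
  · simp [h0]
  · have hI : Complex.I ≠ 0 := Complex.I_ne_zero
    field_simp

theorem pbk_JJ (μ : ℂ → ℂ) (y : ℂ) :
    pbk JJ μ y = μ y⁻¹ * ((-Complex.I * y) ^ 2 / conj (-Complex.I * y) ^ 2) := by
  unfold pbk
  rw [mob_JJinv, den_JJinv]

theorem conj_JJ {Γ : Type} [Group Γ] (σ : Γ →* SL) (γ : Γ) (h : IsSU (σ γ)) :
    JJ * σ γ * JJ⁻¹ = cc σ γ := by
  obtain ⟨h1, h2⟩ := h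
  have hI : Complex.I * Complex.I = -1 := Complex.I_mul_I
  have hcc : ∀ i j, ((cc σ γ : SL) : Mat) i j = conj (((σ γ : SL) : Mat) i j) := fun i j => rfl
  have hJ00 : ((JJ : SL) : Mat) 0 0 = 0 := rfl
  have hJ01 : ((JJ : SL) : Mat) 0 1 = Complex.I := rfl
  have hJ10 : ((JJ : SL) : Mat) 1 0 = Complex.I := rfl
  have hJ11 : ((JJ : SL) : Mat) 1 1 = 0 := rfl
  have h := JJinv
  have h00 : ((JJ⁻¹ : SL) : Mat) 0 0 = 0 := by rw [h]; rfl
  have h01 : ((JJ⁻¹ : SL) : Mat) 0 1 = -Complex.I := by rw [h]; rfl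
  have h10 : ((JJ⁻¹ : SL) : Mat) 1 0 = -Complex.I := by rw [h]; rfl
  have h11 : ((JJ⁻¹ : SL) : Mat) 1 1 = 0 := by rw [h]; rfl
  have hc1 : conj (((σ γ : SL) : Mat) 1 1) = ((σ γ : SL) : Mat) 0 0 := by
    rw [h1]; exact Complex.conj_conj _
  have hc2 : conj (((σ γ : SL) : Mat) 1 0) = ((σ γ : SL) : Mat) 0 1 := by
    rw [h2]; exact Complex.conj_conj _
  apply Subtype.ext
  ext i j
  show (((JJ : SL) : Mat) * ((σ γ : SL) : Mat) * ((JJ⁻¹ : SL) : Mat)) i j = _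
  rw [hcc]
  fin_cases i <;> fin_cases j
  · show (((JJ : SL) : Mat) * ((σ γ : SL) : Mat) * ((JJ⁻¹ : SL) : Mat)) 0 0
      = conj (((σ γ : SL) : Mat) 0 0)
    rw [Matrix.mul_apply, Fin.sum_univ_two, Matrix.mul_apply, Fin.sum_univ_two,
      Matrix.mul_apply, Fin.sum_univ_two, hJ00, hJ01, h00, h10, ← h1]
    linear_combination (-((σ γ : SL) : Mat) 1 1) * hI
  · show (((JJ : SL) : Mat) * ((σ γ : SL) : Mat) * ((JJ⁻¹ : SL) : Mat)) 0 1
      = conj (((σ γ : SL) : Mat) 0 1)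
    rw [Matrix.mul_apply, Fin.sum_univ_two, Matrix.mul_apply, Fin.sum_univ_two,
      Matrix.mul_apply, Fin.sum_univ_two, hJ00, hJ01, h01, h11, ← h2]
    linear_combination (-((σ γ : SL) : Mat) 1 0) * hI
  · show (((JJ : SL) : Mat) * ((σ γ : SL) : Mat) * ((JJ⁻¹ : SL) : Mat)) 1 0
      = conj (((σ γ : SL) : Mat) 1 0)
    rw [Matrix.mul_apply, Fin.sum_univ_two, Matrix.mul_apply, Fin.sum_univ_two,
      Matrix.mul_apply, Fin.sum_univ_two, hJ10, hJ11, h00, h10, hc2]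
    linear_combination (-((σ γ : SL) : Mat) 0 1) * hI
  · show (((JJ : SL) : Mat) * ((σ γ : SL) : Mat) * ((JJ⁻¹ : SL) : Mat)) 1 1
      = conj (((σ γ : SL) : Mat) 1 1)
    rw [Matrix.mul_apply, Fin.sum_univ_two, Matrix.mul_apply, Fin.sum_univ_two,
      Matrix.mul_apply, Fin.sum_univ_two, hJ10, hJ11, h01, h11, hc1]
    linear_combination (-((σ γ : SL) : Mat) 0 0) * hI

theorem pSWP (hFPC : Pool.Agent.Helper17.QD.StFPC) (hMBC : Pool.Agent.Helper63.QP2.StMBC) :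
    Pool.Agent.Helper63.QP2.StSWP := by
  constructor
  · intro Γ _ σ ρ μ k h
    obtain ⟨hb, -, C, -, hC⟩ := hMBC k h.k1 μ h.bel JJ
    refine ⟨pbk JJ μ, C, (hFPC Γ σ h.fs).1, h.k0, h.k1, hb, ?_, ?_, ?_⟩
    · intro z hz
      rw [pbk_JJ]
      rcases eq_or_ne z 0 with h0 | h0
      · simp [h0]
      · have : 1 ≤ ‖z⁻¹‖ := by
          rw [norm_inv]
          exact (one_le_inv₀ (norm_pos_iff.mpr h0)).mpr hz
        rw [h.out0 _ this, zero_mul]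
    · intro γ
      have := (hC (σ γ) (ρ γ) (h.int γ)).2
      rwa [conj_JJ σ γ (h.fs.su γ)] at this
    · intro γ
      have := (hC (σ γ) (ρ γ) (h.int γ)).1
      rwa [conj_JJ σ γ (h.fs.su γ)] at this
  · intro Γ _ σ ρ μ k h
    obtain ⟨hb, -, C, -, hC⟩ := hMBC k h.k1 μ h.bel JJ
    refine ⟨pbk JJ μ, C, (hFPC Γ σ h.fs).1, h.k0, h.k1, hb, ?_, ?_, ?_⟩
    · intro z hz
      rw [pbk_JJ]
      have : ‖z⁻¹‖ ≤ 1 := by
        rw [norm_inv]
        exact inv_le_one_of_one_le₀ hz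
      rw [h.in0 _ this, zero_mul]
    · intro γ
      have := (hC (σ γ) (ρ γ) (h.int γ)).2
      rwa [conj_JJ σ γ (h.fs.su γ)] at this
    · intro γ
      have := (hC (σ γ) (ρ γ) (h.int γ)).1
      rwa [conj_JJ σ γ (h.fs.su γ)] at this

end Pool.Agent.Helper52.QP2
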